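import Pool.Agent.H34.TAM.Stmts

/-!
Row EXJ of board tam (MP_286349_an): expectation onto a free block.
-/

set_option autoImplicit false

noncomputable section

namespace Pool.TAM

open Pool.CGR Pool.CGS

namespace EXJ

open Pool.CGR.FSB (e De De_mul De_ι De_algebraMap De_one De_add De_smul e_word De_word)

section

variable {m : ℕ} (c : Fin m → Fin m) {A : Type} [Ring A] [Algebra ℂ A] (τ : A →ₗ[ℂ] ℂ)
  (x : Fin m → A)

/-- the algebra of a block -/
abbrev Bx (o : Fin m) : Subalgebra ℂ A := Algebra.adjoin ℂ (x '' (c ⁻¹' {o}))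

/-- the algebra of a block, in the free algebra -/
abbrev BB (o : Fin m) : Subalgebra ℂ (FreeAlgebra ℂ (Fin m)) :=
  Algebra.adjoin ℂ (FreeAlgebra.ι ℂ '' (c ⁻¹' {o}))

/-- the indicator of a letter -/
def ind (i j : Fin m) : ℂ := if j = i then 1 else 0

theorem e_mem (o : Fin m) {p : FreeAlgebra ℂ (Fin m)} (hp : p ∈ BB c o) :
    e x p ∈ Bx c x o := by
  induction hp using Algebra.adjoin_induction with
  | mem y hy =>
    obtain ⟨y, hy, rfl⟩ := hy
    rw [show e x (FreeAlgebra.ι ℂ y) = x y from FreeAlgebra.lift_ι_apply _ _]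
    exact Algebra.subset_adjoin ⟨y, hy, rfl⟩
  | algebraMap r =>
    rw [AlgHom.commutes]
    exact Subalgebra.algebraMap_mem _ r
  | add p q _ _ hp hq =>
    rw [map_add]
    exact add_mem hp hq
  | mul p q _ _ hp hq =>
    rw [map_mul]
    exact mul_mem hp hq

theorem De_other (i : Fin m) (o : Fin m) (ho : o ≠ c i)
    {p : FreeAlgebra ℂ (Fin m)} (hp : p ∈ BB c o) :
    ∀ a b : A, De τ x (ind i) p a b = 0 := by
  induction hp using Algebra.adjoin_induction with
  | mem y hy =>
    obtain ⟨y, hy, rfl⟩ := hy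
    have hy' : c y = o := hy
    intro a b
    have hi : ind i y = 0 := by
      unfold ind
      rw [if_neg]
      rintro rfl
      exact ho hy'.symm
    rw [De_ι, hi, zero_mul, zero_mul]
  | algebraMap r =>
    intro a b
    exact De_algebraMap _ _ _ r a b
  | add p q _ _ hp hq =>
    intro a b
    rw [De_add, hp, hq, add_zero]
  | mul p q _ _ hp hq =>
    intro a b
    rw [De_mul, hp, hq, add_zero]

theorem De_right (i o : Fin m) {p : FreeAlgebra ℂ (Fin m)} (hp : p ∈ BB c o) :
    ∀ a b : A, (∀ u ∈ Bx c x o, τ (u * b) = 0) → De τ x (ind i) p a b = 0 := by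
  induction hp using Algebra.adjoin_induction with
  | mem y hy =>
    obtain ⟨y, hy, rfl⟩ := hy
    intro a b hb
    have h := hb 1 (one_mem _)
    rw [one_mul] at h
    rw [De_ι, h, mul_zero, zero_mul]
  | algebraMap r =>
    intro a b _
    exact De_algebraMap _ _ _ r a b
  | add p q _ _ hp hq =>
    intro a b hb
    rw [De_add, hp a b hb, hq a b hb, add_zero]
  | mul p q _ hq' hp hq =>
    intro a b hb
    rw [De_mul, hq _ b hb, hp, add_zero]
    intro u hu
    rw [← mul_assoc]
    exact hb _ (mul_mem hu (e_mem c x o hq'))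

theorem De_left (i o : Fin m) {p : FreeAlgebra ℂ (Fin m)} (hp : p ∈ BB c o) :
    ∀ a b : A, (∀ u ∈ Bx c x o, τ (a * u) = 0) → De τ x (ind i) p a b = 0 := by
  induction hp using Algebra.adjoin_induction with
  | mem y hy =>
    obtain ⟨y, hy, rfl⟩ := hy
    intro a b hb
    have h := hb 1 (one_mem _)
    rw [mul_one] at h
    rw [De_ι, h, mul_zero]
  | algebraMap r =>
    intro a b _
    exact De_algebraMap _ _ _ r a b
  | add p q _ _ hp hq =>
    intro a b hb
    rw [De_add, hp a b hb, hq a b hb, add_zero]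
  | mul p q hp' _ hp hq =>
    intro a b hb
    rw [De_mul, hp a _ hb, hq, add_zero]
    intro u hu
    rw [mul_assoc]
    exact hb _ (mul_mem (e_mem c x o hp') hu)

/-! ### Alternating centred lists -/

/-- the evaluation of a list of elements of the free algebra -/
def EL (l : List (Fin m × FreeAlgebra ℂ (Fin m))) : List (Fin m × A) :=
  l.map fun a => (a.1, e x a.2)

/-- alternating and centred -/
def AC (l : List (Fin m × FreeAlgebra ℂ (Fin m))) : Prop :=
  l.IsChain (fun a b => a.1 ≠ b.1) ∧ ∀ a ∈ l, a.2 ∈ BB c a.1 ∧ τ (e x a.2) = 0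

theorem EL_prod (l : List (Fin m × FreeAlgebra ℂ (Fin m))) :
    ((EL x l).map Prod.snd).prod = e x (l.map Prod.snd).prod := by
  rw [map_list_prod]
  simp [EL, Function.comp_def]

theorem EL_mem {l : List (Fin m × FreeAlgebra ℂ (Fin m))} (hl : AC c τ x l) :
    ∀ a ∈ EL x l, a.2 ∈ Bx c x a.1 ∧ τ a.2 = 0 := by
  intro a ha
  obtain ⟨b, hb, rfl⟩ := List.mem_map.1 ha
  exact ⟨e_mem c x b.1 (hl.2 b hb).1, (hl.2 b hb).2⟩

theorem EL_chain {l : List (Fin m × FreeAlgebra ℂ (Fin m))} (hl : AC c τ x l) :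
    (EL x l).IsChain (fun a b => a.1 ≠ b.1) := by
  unfold EL
  rw [List.isChain_map]
  exact hl.1

theorem EL_ne {l : List (Fin m × FreeAlgebra ℂ (Fin m))} (h0 : l ≠ []) : EL x l ≠ [] := by
  simpa [EL] using h0

/-- the three cases of `VAN` -/
theorem van (hV : VANStmt) (h1 : τ 1 = 1) (hF : FreeAlg τ (Bx c x))
    {l : List (Fin m × FreeAlgebra ℂ (Fin m))} (hl : AC c τ x l) (h0 : l ≠ []) (o : Fin m) (u : A)
    (hu : u ∈ Bx c x o) :
    ((∀ a ∈ l.getLast?, a.1 ≠ o) → τ (e x (l.map Prod.snd).prod * u) = 0) ∧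
      ((∀ a ∈ l.head?, a.1 ≠ o) → τ (u * e x (l.map Prod.snd).prod) = 0) ∧
      ((2 ≤ l.length ∨ ∀ a ∈ l, a.1 ≠ o) → τ (e x (l.map Prod.snd).prod * u) = 0) := by
  have h := hV A (Fin m) τ (Bx c x) h1 hF (EL x l) (EL_ne x h0) (EL_chain c τ x hl)
    (EL_mem c τ x hl) o u hu
  rw [EL_prod] at h
  refine ⟨fun h' => h.1 ?_, fun h' => h.2.1 ?_, fun h' => h.2.2 ?_⟩
  · intro a ha
    unfold EL at ha
    rw [List.getLast?_map] at ha
    obtain ⟨b, hb, rfl⟩ := Option.mem_map.1 ha
    exact h' b hb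
  · intro a ha
    unfold EL at ha
    rw [List.head?_map] at ha
    obtain ⟨b, hb, rfl⟩ := Option.mem_map.1 ha
    exact h' b hb
  · rcases h' with h' | h'
    · left
      simpa [EL] using h'
    · right
      intro a ha
      obtain ⟨b, hb, rfl⟩ := List.mem_map.1 ha
      exact h' b hb

theorem De_rest (hV : VANStmt) (h1 : τ 1 = 1) (hF : FreeAlg τ (Bx c x)) (i : Fin m)
    (l2 : List (Fin m × FreeAlgebra ℂ (Fin m))) :
    ∀ l1 : List (Fin m × FreeAlgebra ℂ (Fin m)), l1 ≠ [] → AC c τ x (l1 ++ l2) →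
      De τ x (ind i) (l2.map Prod.snd).prod (e x (l1.map Prod.snd).prod) 1 = 0 := by
  induction l2 with
  | nil =>
    intro l1 _ _
    exact De_one _ _ _ _ _
  | cons a l2 ih =>
    intro l1 h0 hl
    have hl1 : AC c τ x l1 :=
      ⟨(List.isChain_append.1 hl.1).1, fun b hb => hl.2 b (List.mem_append_left _ hb)⟩
    rw [List.map_cons, List.prod_cons, De_mul]
    have hsec : De τ x (ind i) (l2.map Prod.snd).prod
        (e x (l1.map Prod.snd).prod * e x a.2) 1 = 0 := by
      have h := ih (l1 ++ [a]) (by simp) (by simpa using hl)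
      rw [List.map_append, List.prod_append, map_mul] at h
      simpa using h
    rw [hsec, add_zero]
    by_cases ha : a.1 = c i
    · apply De_left c τ x i (c i) (ha ▸ (hl.2 a (by simp)).1)
      intro u hu
      refine (van c τ x hV h1 hF hl1 h0 (c i) u hu).1 ?_
      intro b hb
      rw [← ha]
      exact (List.isChain_append.1 hl.1).2.2 b hb a (by simp)
    · exact De_other c τ x i a.1 ha (hl.2 a (by simp)).1 _ _

theorem De_two (hV : VANStmt) (h1 : τ 1 = 1) (hF : FreeAlg τ (Bx c x)) (i : Fin m)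
    (a : Fin m × FreeAlgebra ℂ (Fin m)) (l : List (Fin m × FreeAlgebra ℂ (Fin m))) (h0 : l ≠ [])
    (hl : AC c τ x (a :: l)) :
    De τ x (ind i) ((a :: l).map Prod.snd).prod 1 1 = 0 := by
  have hl' : AC c τ x l := ⟨hl.1.tail, fun b hb => hl.2 b (List.mem_cons_of_mem _ hb)⟩
  have hrest := De_rest c τ x hV h1 hF i l [a] (List.cons_ne_nil _ _) hl
  rw [List.map_singleton, List.prod_singleton] at hrest
  rw [List.map_cons, List.prod_cons, De_mul, one_mul, hrest, add_zero, mul_one]
  by_cases ha : a.1 = c i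
  · apply De_right c τ x i (c i) (ha ▸ (hl.2 a (by simp)).1)
    intro u hu
    refine (van c τ x hV h1 hF hl' h0 (c i) u hu).2.1 ?_
    intro b hb
    rw [← ha]
    have h := hl.1
    cases l with
    | nil => exact absurd rfl h0
    | cons d l =>
      have hb' : b = d := by simpa using hb.symm
      rw [hb']
      exact (List.isChain_cons_cons.1 h).1.symm
  · exact De_other c τ x i a.1 ha (hl.2 a (by simp)).1 _ _

/-! ### Polynomials and the free algebra -/

/-- the polynomial as an element of the free algebra -/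
def tf (P : List (Fin m) →₀ ℂ) : FreeAlgebra ℂ (Fin m) :=
  P.sum fun w r => r • (w.map (FreeAlgebra.ι ℂ)).prod

theorem tf_add (P Q : List (Fin m) →₀ ℂ) : tf (P + Q) = tf P + tf Q := by
  unfold tf
  exact Finsupp.sum_add_index' (by simp) (by intro a b1 b2; rw [add_smul])

theorem tf_smul (r : ℂ) (P : List (Fin m) →₀ ℂ) : tf (r • P) = r • tf P := by
  unfold tf
  rw [Finsupp.sum_smul_index (by simp), Finsupp.smul_sum]
  simp only [mul_smul]

theorem e_tf (P : List (Fin m) →₀ ℂ) : e x (tf P) = pe x P := by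
  unfold tf pe
  rw [Finsupp.sum, Finsupp.sum, map_sum]
  apply Finset.sum_congr rfl
  intro w _
  rw [map_smul, e_word]

theorem De_sum {K : Type} (s : Finset K) (f : K → FreeAlgebra ℂ (Fin m)) (ε : Fin m → ℂ)
    (a b : A) : De τ x ε (∑ k ∈ s, f k) a b = ∑ k ∈ s, De τ x ε (f k) a b := by
  classical
  induction s using Finset.induction_on with
  | empty =>
    have h := De_smul τ x ε 0 (1 : FreeAlgebra ℂ (Fin m)) a b
    rw [zero_smul, zero_mul] at h
    simpa using h
  | insert k s hk ih =>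
    rw [Finset.sum_insert hk, Finset.sum_insert hk, De_add, ih]

theorem De_tf (i : Fin m) (P : List (Fin m) →₀ ℂ) :
    De τ x (ind i) (tf P) 1 1 = dp τ x i P := by
  unfold tf dp
  rw [Finsupp.sum, Finsupp.sum, De_sum]
  apply Finset.sum_congr rfl
  intro w _
  rw [De_smul, De_word]
  congr 1
  unfold dq
  apply Finset.sum_congr rfl
  intro k _
  rw [one_mul, mul_one]
  cases hk : w[k]? with
  | none => simp
  | some y =>
    by_cases hy : y = i
    · simp [ind, hy]
    · simp [ind, hy]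

theorem pe_mem (o : Fin m) (Q : List (Fin m) →₀ ℂ) (hQ : Lt (c ⁻¹' {o}) Q) :
    pe x Q ∈ Bx c x o := by
  unfold pe
  rw [Finsupp.sum]
  apply sum_mem
  intro w hw
  apply Subalgebra.smul_mem
  unfold ev
  apply list_prod_mem
  intro a ha
  obtain ⟨j, hj, rfl⟩ := List.mem_map.1 ha
  exact Algebra.subset_adjoin ⟨j, hQ w hw j hj, rfl⟩

theorem lt_add {I : Set (Fin m)} {P Q : List (Fin m) →₀ ℂ} (hP : Lt I P) (hQ : Lt I Q) :
    Lt I (P + Q) := by
  intro w hw
  rcases Finset.mem_union.1 (Finsupp.support_add hw) with h | h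
  · exact hP w h
  · exact hQ w h

theorem lt_smul {I : Set (Fin m)} {P : List (Fin m) →₀ ℂ} (r : ℂ) (hP : Lt I P) :
    Lt I (r • P) := by
  intro w hw
  exact hP w (Finsupp.support_smul hw)

theorem closure_word (o : Fin m) {q : FreeAlgebra ℂ (Fin m)}
    (hq : q ∈ Submonoid.closure (FreeAlgebra.ι ℂ '' (c ⁻¹' {o}))) :
    ∃ w : List (Fin m), (∀ j ∈ w, j ∈ c ⁻¹' {o}) ∧ q = (w.map (FreeAlgebra.ι ℂ)).prod := by
  induction hq using Submonoid.closure_induction with
  | mem y hy =>
    obtain ⟨j, hj, rfl⟩ := hy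
    refine ⟨[j], ?_, by simp⟩
    intro k hk
    rw [List.mem_singleton.1 hk]
    exact hj
  | one => exact ⟨[], by simp, by simp⟩
  | mul p q _ _ hp hq =>
    obtain ⟨u, hu, rfl⟩ := hp
    obtain ⟨v, hv, rfl⟩ := hq
    refine ⟨u ++ v, ?_, by simp⟩
    intro k hk
    rcases List.mem_append.1 hk with h | h
    · exact hu k h
    · exact hv k h

theorem exists_tf (o : Fin m) {q : FreeAlgebra ℂ (Fin m)} (hq : q ∈ BB c o) :
    ∃ P : List (Fin m) →₀ ℂ, Lt (c ⁻¹' {o}) P ∧ tf P = q := by
  have hq' : q ∈ Submodule.span ℂ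
      (Submonoid.closure (FreeAlgebra.ι ℂ '' (c ⁻¹' {o})) : Set (FreeAlgebra ℂ (Fin m))) := by
    rw [← Algebra.adjoin_eq_span]
    exact hq
  clear hq
  induction hq' using Submodule.span_induction with
  | mem y hy =>
    obtain ⟨w, hw, rfl⟩ := closure_word c o hy
    refine ⟨Finsupp.single w 1, ?_, ?_⟩
    · intro v hv
      have hv' := Finsupp.support_single_subset hv
      rw [Finset.mem_singleton.1 hv']
      exact hw
    · unfold tf
      rw [Finsupp.sum_single_index (by simp), one_smul]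
  | zero =>
    refine ⟨0, ?_, ?_⟩
    · intro v hv
      simp at hv
    · simp [tf]
  | add p q hp hq ihp ihq =>
    obtain ⟨P, hP, rfl⟩ := ihp
    obtain ⟨Q, hQ, rfl⟩ := ihq
    exact ⟨P + Q, lt_add hP hQ, tf_add P Q⟩
  | smul r p hp ihp =>
    obtain ⟨P, hP, rfl⟩ := ihp
    exact ⟨r • P, lt_smul r hP, tf_smul r P⟩

/-- the conclusion for an element of the free algebra -/
def Good (o : Fin m) (q : FreeAlgebra ℂ (Fin m)) : Prop :=
  ∃ P' : List (Fin m) →₀ ℂ, Lt (c ⁻¹' {o}) P' ∧
    (∀ u ∈ Bx c x o, τ (e x q * u) = τ (pe x P' * u)) ∧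
    ∀ i : Fin m, c i = o → De τ x (ind i) q 1 1 = De τ x (ind i) (tf P') 1 1

theorem good (hV : VANStmt) (h1 : τ 1 = 1) (hF : FreeAlg τ (Bx c x)) (o : Fin m)
    (q : FreeAlgebra ℂ (Fin m)) : Good c τ x o q := by
  have hq := fsa_thm (Fin m) (Fin m) c (τ ∘ₗ (e x).toLinearMap) (by simp [h1]) q
  refine Submodule.span_induction (p := fun q _ => Good c τ x o q) ?_ ?_ ?_ ?_ hq
  · rintro q ⟨l, hc, hl, rfl⟩
    have hAC : AC c τ x l := ⟨hc, fun a ha => hl a ha⟩
    have hzero : (∀ u ∈ Bx c x o, τ (e x (l.map Prod.snd).prod * u) = 0) →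
        (∀ i : Fin m, c i = o → De τ x (ind i) (l.map Prod.snd).prod 1 1 = 0) →
        Good c τ x o (l.map Prod.snd).prod := by
      intro h h'
      refine ⟨0, ?_, ?_, ?_⟩
      · intro v hv
        simp at hv
      · intro u hu
        rw [h u hu]
        simp [pe]
      · intro i hi
        rw [h' i hi, De_tf]
        simp [dp]
    match l, hAC, hzero with
    | [], _, _ =>
      refine ⟨Finsupp.single [] 1, ?_, ?_, ?_⟩
      · intro v hv
        have hv' := Finsupp.support_single_subset hv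
        rw [Finset.mem_singleton.1 hv']
        simp
      · intro u _
        rw [← e_tf]
        simp [tf]
      · intro i _
        simp [tf]
    | [a], hAC, hzero =>
      by_cases ha : a.1 = o
      · obtain ⟨P, hP, hP'⟩ := exists_tf c o (ha ▸ (hAC.2 a (by simp)).1)
        refine ⟨P, hP, ?_, ?_⟩
        · intro u _
          rw [← e_tf, hP']
          simp
        · intro i _
          rw [hP']
          simp
      · apply hzero
        · intro u hu
          refine (van c τ x hV h1 hF hAC (by simp) o u hu).2.2 (Or.inr ?_)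
          intro b hb
          rw [List.mem_singleton.1 hb]
          exact ha
        · intro i hi
          rw [List.map_singleton, List.prod_singleton]
          refine De_other c τ x i a.1 ?_ (hAC.2 a (by simp)).1 1 1
          rw [hi]
          exact ha
    | a :: b :: l, hAC, hzero =>
      apply hzero
      · intro u hu
        refine (van c τ x hV h1 hF hAC (by simp) o u hu).2.2 (Or.inl ?_)
        simp
      · intro i _
        exact De_two c τ x hV h1 hF i a (b :: l) (by simp) hAC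
  · refine ⟨0, ?_, ?_, ?_⟩
    · intro v hv
      simp at hv
    · intro u _
      simp [pe]
    · intro i _
      simp [tf]
  · rintro p q _ _ ⟨P, hP, hP1, hP2⟩ ⟨Q, hQ, hQ1, hQ2⟩
    refine ⟨P + Q, lt_add hP hQ, ?_, ?_⟩
    · intro u hu
      rw [← e_tf, tf_add, map_add, map_add, add_mul, add_mul, map_add, map_add, e_tf, e_tf,
        hP1 u hu, hQ1 u hu]
    · intro i hi
      rw [tf_add, De_add, De_add, hP2 i hi, hQ2 i hi]
  · rintro r p _ ⟨P, hP, hP1, hP2⟩
    refine ⟨r • P, lt_smul r hP, ?_, ?_⟩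
    · intro u hu
      rw [← e_tf, tf_smul, map_smul, map_smul, smul_mul_assoc, smul_mul_assoc, map_smul, map_smul,
        e_tf, hP1 u hu]
    · intro i hi
      rw [tf_smul, De_smul, De_smul, hP2 i hi]

end

end EXJ

open EXJ in
theorem exj_thm (h1 : VANStmt) : EXJStmt := by
  intro m A _ τ hτ x c hB o P
  have hF : FreeAlg τ (Bx c x) := hB
  obtain ⟨P', hP', h2, h3⟩ := good c τ x h1 hτ.one hF o (tf P)
  refine ⟨P', hP', ?_, ?_⟩
  · intro Q hQ
    have h := h2 _ (pe_mem c x o Q hQ)
    rw [e_tf] at h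
    exact h
  · intro i hi
    have h := h3 i hi
    rw [De_tf, De_tf] at h
    exact h

end Pool.TAM
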